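import Pool.Agent.helper93.PX.All

/-!
Alternate bases whose product is a Salem number (more generally a Perron number) β: refinements
which are Parry, and density of the Parry bases.
-/

set_option autoImplicit false

namespace Pool.Agent.Results.MP_2b41e9_nt.ParryRefinements

/-- Perron number: an algebraic integer β > 1 all of whose other conjugates have modulus < β. -/
def IsPerron (β : ℝ) : Prop :=
  IsIntegral ℤ β ∧ 1 < β ∧
    ∀ z : ℂ, Polynomial.aeval z (minpoly ℤ β) = 0 → z ≠ (β : ℂ) → ‖z‖ < β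

/-- Salem number (exactly as in the frozen statement S16397). -/
def IsSalem (β : ℝ) : Prop :=
  IsIntegral ℤ β ∧ 1 < β ∧
    (∀ z : ℂ, Polynomial.aeval z (minpoly ℤ β) = 0 → z ≠ (β : ℂ) → ‖z‖ ≤ 1) ∧
    ∃ z : ℂ, Polynomial.aeval z (minpoly ℤ β) = 0 ∧ ‖z‖ = 1

/-- Alternate base (b 0, ..., b (p-1)) of real numbers > 1 with product β, indices mod p. -/
def IsAlt (β : ℝ) (p : ℕ) (b : ℕ → ℝ) : Prop :=
  0 < p ∧ (∀ n, b (n + p) = b n) ∧ (∀ n, 1 < b n) ∧ β = ∏ i ∈ Finset.range p, b i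

/-- All entries lie in ℚ(β). -/
def InField (β : ℝ) (b : ℕ → ℝ) : Prop :=
  ∀ n, b n ∈ IntermediateField.adjoin ℚ ({β} : Set ℝ)

/-- r is the sequence of remainders of the greedy expansion of 1 for the i-th shift of b. -/
def IsGreedy (b : ℕ → ℝ) (i : ℕ) (r : ℕ → ℝ) : Prop :=
  r 0 = 1 ∧ ∀ n, r (n + 1) = b (n + i) * r n - (⌊b (n + i) * r n⌋ : ℝ)

/-- Parry (the conclusion of S16397): for every shift the greedy expansion of 1 has ultimately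
periodic digits. -/
def IsParry (p : ℕ) (b : ℕ → ℝ) : Prop :=
  ∀ i, i < p → ∀ r : ℕ → ℝ, IsGreedy b i r →
    ∃ N T : ℕ, 0 < T ∧ ∀ n, N ≤ n → ⌊b (n + T + i) * r (n + T)⌋ = ⌊b (n + i) * r n⌋

/-- For every shift the greedy expansion of 1 is finite. -/
def AllFinite (b : ℕ → ℝ) : Prop :=
  ∀ (i : ℕ) (r : ℕ → ℝ), IsGreedy b i r → ∃ N : ℕ, ∀ n, N ≤ n → r n = 0

/-- α refines b up to ε: there are 0 = κ 0 < κ 1 < ... < κ p = length of α such that b j is the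
product of the block α (κ j), ..., α (κ (j+1) - 1), and in every block the product of all factors
but the first is less than 1 + ε. -/
def Refines (ε : ℝ) (p : ℕ) (b : ℕ → ℝ) (κ : ℕ → ℕ) (α : ℕ → ℝ) : Prop :=
  κ 0 = 0 ∧ StrictMono κ ∧ ∀ j, j < p → ∏ i ∈ Finset.Ico (κ j) (κ (j + 1)), α i = b j ∧
    ∏ i ∈ Finset.Ico (κ j + 1) (κ (j + 1)), α i < 1 + ε

/-- α is ε-close to b: as above, but the first factor of the j-th block is within ε of b j. -/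
def Close (ε : ℝ) (p : ℕ) (b : ℕ → ℝ) (κ : ℕ → ℕ) (α : ℕ → ℝ) : Prop :=
  κ 0 = 0 ∧ StrictMono κ ∧ ∀ j, j < p → |α (κ j) - b j| < ε ∧
    ∏ i ∈ Finset.Ico (κ j + 1) (κ (j + 1)), α i < 1 + ε

theorem result :
    (∀ β : ℝ, IsSalem β → IsPerron β) ∧
    (∀ (p : ℕ) (b : ℕ → ℝ), AllFinite b → IsParry p b) ∧
    ∀ β : ℝ, IsPerron β → ∀ (p : ℕ) (b : ℕ → ℝ), IsAlt β p b → ∀ ε : ℝ, 0 < ε →
      (InField β b → ∃ (κ : ℕ → ℕ) (α : ℕ → ℝ), Refines ε p b κ α ∧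
        IsAlt β (κ p) α ∧ InField β α ∧ AllFinite α) ∧
      ∃ (κ : ℕ → ℕ) (α : ℕ → ℝ), Close ε p b κ α ∧
        IsAlt β (κ p) α ∧ InField β α ∧ AllFinite α := by
  refine ⟨Pool.Agent.PX.FIN_salem, Pool.Agent.PX.FIN_simple, ?_⟩
  intro β hβ p b hb ε hε
  constructor
  · intro hK
    obtain ⟨κ, α, h1, h2, h3, h4, h5, h6⟩ :=
      Pool.Agent.PX.FIN_ref Pool.Agent.PX.ALL_main β hβ p b hb hK ε hε
    exact ⟨κ, α, ⟨h1, h2, h6⟩, h3, h4, h5⟩
  · obtain ⟨κ, α, h1, h2, h3, h4, h5, h6⟩ :=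
      Pool.Agent.PX.FIN_dense Pool.Agent.PX.ALL_main β hβ p b hb ε hε
    exact ⟨κ, α, ⟨h1, h2, h6⟩, h3, h4, h5⟩

end Pool.Agent.Results.MP_2b41e9_nt.ParryRefinements
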